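import Mathlib

/-!
# The product of two elements of unit stable range one need not have unit stable range one
-/

namespace Pool.Agent.Results.MP_5a9afa_al.UsrProduct

/-- `a` has unit stable range one: whenever `R a + R b = R` there is a unit `u` of `R` such that
`a + u b` is a unit. -/
def UnitStableRangeOne {R : Type*} [Ring R] (a : R) : Prop :=
  ∀ b : R, (∃ x y : R, x * a + y * b = 1) → ∃ u : Rˣ, IsUnit (a + u * b)

/-! ### Continuous functions on the unit interval -/

/-- The ring of continuous real functions on `[0, 1]`. -/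
abbrev C01 : Type := C(unitInterval, ℝ)

/-- A nonnegative continuous function on `[0, 1]` with exactly one zero has unit stable range
one. -/
theorem usr_of_single_zero (a : C01) (p : unitInterval) (hp : a p = 0)
    (hpos : ∀ x, x ≠ p → 0 < a x) : UnitStableRangeOne a := by
  rintro b ⟨x, y, hxy⟩
  have hbp : b p ≠ 0 := by
    intro h
    have := congrArg (fun f : C01 => f p) hxy
    simp [hp, h] at this
  -- a sign
  obtain ⟨s, hs, hsb⟩ : ∃ s : ℝ, (s = 1 ∨ s = -1) ∧ 0 < s * b p := by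
    rcases lt_or_gt_of_ne hbp with h | h
    · exact ⟨-1, Or.inr rfl, by linarith⟩
    · exact ⟨1, Or.inl rfl, by linarith⟩
  have hs0 : s ≠ 0 := by rcases hs with h | h <;> rw [h] <;> norm_num
  -- a positive lower bound of `a` where `s b ≤ 0`
  have hcl : IsCompact {x : unitInterval | s * b x ≤ 0} := by
    apply IsClosed.isCompact
    exact isClosed_le (by fun_prop) continuous_const
  obtain ⟨η, hη, hηa⟩ : ∃ η : ℝ, 0 < η ∧ ∀ x : unitInterval, s * b x ≤ 0 → η ≤ a x := by
    by_cases hne : {x : unitInterval | s * b x ≤ 0}.Nonempty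
    · obtain ⟨m, hm, hmin⟩ := hcl.exists_isMinOn hne (f := fun x => a x) (by fun_prop)
      refine ⟨a m, hpos m ?_, fun x hx => hmin hx⟩
      rintro rfl
      exact absurd hsb (not_lt.mpr hm)
    · refine ⟨1, one_pos, fun x hx => ?_⟩
      exact absurd ⟨x, hx⟩ hne
  obtain ⟨B, hB⟩ : ∃ B : ℝ, ∀ x : unitInterval, |b x| ≤ B :=
    ⟨‖b‖, fun x => b.norm_coe_le_norm x⟩
  have hB0 : 0 ≤ B := (abs_nonneg _).trans (hB p)
  set δ : ℝ := η / (2 * (B + 1)) with hδ
  have hδ0 : 0 < δ := by positivity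
  have hδB : δ * B < η := by
    rw [hδ, div_mul_eq_mul_div, div_lt_iff₀ (by positivity)]
    nlinarith
  have hunit : IsUnit (algebraMap ℝ C01 (δ * s)) :=
    (isUnit_iff_ne_zero.mpr (mul_ne_zero hδ0.ne' hs0)).map _
  obtain ⟨u, hu⟩ := hunit
  refine ⟨u, ?_⟩
  rw [ContinuousMap.isUnit_iff_forall_ne_zero]
  intro x
  have hux : (u : C01) x = δ * s := by rw [hu]; rfl
  have hval : (a + (u : C01) * b) x = a x + δ * (s * b x) := by
    simp only [ContinuousMap.add_apply, ContinuousMap.mul_apply, hux]; ring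
  rw [hval]
  have hax : 0 ≤ a x := by
    by_cases h : x = p
    · rw [h, hp]
    · exact (hpos x h).le
  apply ne_of_gt
  by_cases h : s * b x ≤ 0
  · have h1 := hηa x h
    have h2 : -(s * b x) ≤ B := by
      refine le_trans ?_ (hB x)
      rcases hs with h | h <;> rw [h]
      · have := neg_abs_le (b x); linarith
      · have := le_abs_self (b x); linarith
    nlinarith
  · have h' : 0 < s * b x := not_le.mp h
    have := mul_pos hδ0 h'
    linarith

/-- The function `t`. -/
def f₁ : C01 := ⟨fun t => (t : ℝ), by fun_prop⟩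

/-- The function `1 - t`. -/
def f₂ : C01 := ⟨fun t => 1 - (t : ℝ), by fun_prop⟩

theorem usr_f₁ : UnitStableRangeOne f₁ := by
  apply usr_of_single_zero f₁ 0 rfl
  intro x hx
  exact lt_of_le_of_ne x.2.1 (fun h => hx (Subtype.ext h.symm))

theorem usr_f₂ : UnitStableRangeOne f₂ := by
  apply usr_of_single_zero f₂ 1 (by simp [f₂])
  intro x hx
  have h : (x : ℝ) < 1 := lt_of_le_of_ne x.2.2 (fun h => hx (Subtype.ext h))
  change 0 < 1 - (x : ℝ)
  linarith

theorem not_usr : ¬ UnitStableRangeOne (f₁ * f₂) := by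
  intro h
  let b : C01 := ⟨fun t => 1 - 2 * (t : ℝ), by fun_prop⟩
  obtain ⟨u, hu⟩ := h b ⟨4, b, by
    ext t
    simp only [ContinuousMap.add_apply, ContinuousMap.mul_apply, f₁, f₂, b,
      ContinuousMap.coe_mk, ContinuousMap.one_apply]
    have : (4 : C01) t = 4 := rfl
    rw [this]; ring⟩
  rw [ContinuousMap.isUnit_iff_forall_ne_zero] at hu
  have hu0 : ∀ t, (u : C01) t ≠ 0 := (ContinuousMap.isUnit_iff_forall_ne_zero _).mp u.isUnit
  -- a nowhere vanishing continuous function on `[0, 1]` has constant sign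
  have key : ∀ g : C01, (∀ t, g t ≠ 0) → ¬ (g 0 ≤ 0 ∧ 0 ≤ g 1) ∧ ¬ (g 1 ≤ 0 ∧ 0 ≤ g 0) := by
    intro g hg
    constructor
    · rintro ⟨h0, h1⟩
      obtain ⟨t, ht⟩ := mem_range_of_exists_le_of_exists_ge g.continuous ⟨0, h0⟩ ⟨1, h1⟩
      exact hg t ht
    · rintro ⟨h0, h1⟩
      obtain ⟨t, ht⟩ := mem_range_of_exists_le_of_exists_ge g.continuous ⟨1, h0⟩ ⟨0, h1⟩
      exact hg t ht
  have e0 : (f₁ * f₂ + (u : C01) * b) 0 = (u : C01) 0 := by
    simp [f₁, f₂, b]
  have e1 : (f₁ * f₂ + (u : C01) * b) 1 = -(u : C01) 1 := by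
    simp [f₁, f₂, b]; ring
  obtain ⟨k1, k2⟩ := key _ hu
  obtain ⟨l1, l2⟩ := key _ hu0
  rw [e0, e1] at k1 k2
  rcases le_total ((u : C01) 0) 0 with h0 | h0 <;> rcases le_total ((u : C01) 1) 0 with h1 | h1
  · exact k1 ⟨h0, by linarith⟩
  · exact l1 ⟨h0, h1⟩
  · exact l2 ⟨h1, h0⟩
  · exact k2 ⟨by linarith, h0⟩

/-- There are a ring `R` (even commutative) and elements `a`, `b` of unit stable range one whose
product does not have unit stable range one. -/
theorem result : ∃ (R : Type) (_ : CommRing R) (a b : R), UnitStableRangeOne a ∧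
    UnitStableRangeOne b ∧ ¬ UnitStableRangeOne (a * b) :=
  ⟨C01, inferInstance, f₁, f₂, usr_f₁, usr_f₂, not_usr⟩

end Pool.Agent.Results.MP_5a9afa_al.UsrProduct
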